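import Mathlib

set_option autoImplicit false

namespace Pool.Agent.Results.MP_2e7467_an.GAS

open Filter Topology

/-- A solution; index `j` here is index `j - k` of the problem, so `x 0, …, x k` are the
nonnegative initial values. -/
def IsSol {k : ℕ} (A : ℝ) (β B : Fin (k + 1) → ℝ) (x : ℕ → ℝ) : Prop :=
  (∀ j ≤ k, 0 ≤ x j) ∧
    ∀ n, x (n + k + 1) = (∑ i, β i * x (n + k - i)) / (A + ∑ i, B i * x (n + k - i))

/-- `p` is the least positive period of `x`. -/
def PrimePeriod (x : ℕ → ℝ) (p : ℕ) : Prop :=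
  IsLeast {q : ℕ | 0 < q ∧ ∀ n, x (n + q) = x n} p

variable {k : ℕ} {A : ℝ} {β B : Fin (k + 1) → ℝ}

lemma bdd (hA : 0 < A) (hβ : ∀ i, 0 ≤ β i) (hB : ∀ i, 0 ≤ B i) (hs : A = ∑ i, β i)
    {x : ℕ → ℝ} (h : IsSol A β B x) {M : ℝ} (hM : ∀ j ≤ k, x j ≤ M) (n : ℕ) :
    0 ≤ x n ∧ x n ≤ M := by
  induction n using Nat.strong_induction_on with
  | _ n ih =>
    by_cases hn : n ≤ k
    · exact ⟨h.1 n hn, hM n hn⟩
    obtain ⟨m, rfl⟩ : ∃ m, n = m + k + 1 := ⟨n - k - 1, by omega⟩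
    have h1 : 0 ≤ ∑ i, B i * x (m + k - i) :=
      Finset.sum_nonneg fun i _ => mul_nonneg (hB i) (ih _ (by omega)).1
    have h2 : 0 ≤ ∑ i, β i * x (m + k - i) :=
      Finset.sum_nonneg fun i _ => mul_nonneg (hβ i) (ih _ (by omega)).1
    have h3 : ∑ i, β i * x (m + k - i) ≤ A * M := by
      rw [hs, Finset.sum_mul]
      exact Finset.sum_le_sum fun i _ => mul_le_mul_of_nonneg_left (ih _ (by omega)).2 (hβ i)
    have hM0 : 0 ≤ M := (h.1 0 (by omega)).trans (hM 0 (by omega))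
    rw [h.2]
    refine ⟨by positivity, ?_⟩
    rw [div_le_iff₀ (by positivity)]
    nlinarith

lemma conv (hA : 0 < A) (hβ : ∀ i, 0 ≤ β i) (hB : ∀ i, 0 ≤ B i) (hs : A = ∑ i, β i)
    (j : Fin (k + 1)) (hj : 0 < B j)
    (hG : ((j : ℤ) + 1) ∈ AddSubgroup.closure {l : ℤ | ∃ i : Fin (k + 1), 0 < β i ∧ l = i + 1})
    {x : ℕ → ℝ} (h : IsSol A β B x) : Tendsto x atTop (𝓝 0) := by
  obtain ⟨M, hM⟩ : ∃ M, ∀ j ≤ k, x j ≤ M :=
    ⟨∑ j ∈ Finset.range (k + 1), x j, fun j hj => Finset.single_le_sum (f := x)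
      (fun i hi => h.1 i (by simpa [Nat.lt_succ_iff] using hi)) (by simpa [Nat.lt_succ_iff])⟩
  have hb := bdd hA hβ hB hs h hM
  have b1 : atTop.IsBoundedUnder (· ≤ ·) x := isBoundedUnder_of ⟨M, fun n => (hb n).2⟩
  have b2 : atTop.IsBoundedUnder (· ≥ ·) x := isBoundedUnder_of ⟨0, fun n => (hb n).1⟩
  refine tendsto_of_le_liminf_of_limsup_le
    (le_liminf_of_le b1.isCoboundedUnder_ge (Eventually.of_forall fun n => (hb n).1)) ?_ b1 b2
  by_contra hL
  push Not at hL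
  obtain ⟨U, hU, hUL⟩ := mapClusterPt_iff_ultrafilter.mp
    (MapClusterPt.limsup (f := atTop) (u := x) b2.isCoboundedUnder_le b1)
  have hev : ∀ L', limsup x atTop < L' → ∀ᶠ n in atTop, x n < L' := fun L' h' =>
    eventually_lt_of_limsup_lt h' b1
  generalize limsup x atTop = L at hL hUL hev
  have hz : ∀ s : ℕ, ∃ z, Tendsto (fun n => x (n - s)) U (𝓝 z) := fun s => by
    obtain ⟨z, -, hz⟩ := (isCompact_Icc (a := (0:ℝ)) (b := M)).ultrafilter_le_nhds
      (U.map fun n => x (n - s)) (by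
        rw [Ultrafilter.coe_map, le_principal_iff, mem_map]
        exact Eventually.of_forall fun n => hb _)
    exact ⟨z, hz⟩
  choose z hz using hz
  have z0 : z 0 = L := tendsto_nhds_unique (hz 0) hUL
  have zn : ∀ s, 0 ≤ z s := fun s => ge_of_tendsto' (hz s) fun n => (hb _).1
  have zL : ∀ s, z s ≤ L := fun s => le_of_forall_gt_imp_ge_of_dense fun L' h' =>
    le_of_tendsto (hz s) (((tendsto_sub_atTop_nat s).eventually (hev L' h')).filter_mono hU |>.mono
      fun n hn => hn.le)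
  have zr : ∀ s, z s * (A + ∑ i, B i * z (s + (i + 1))) = ∑ i, β i * z (s + (i + 1)) := by
    intro s
    refine tendsto_nhds_unique_of_eventuallyEq
      ((hz s).mul (tendsto_const_nhds.add
        (tendsto_finsetSum _ fun i _ => (hz (s + (i + 1))).const_mul (B i))))
      (tendsto_finsetSum _ fun i _ => (hz (s + (i + 1))).const_mul (β i)) ?_
    refine ((eventually_ge_atTop (s + k + 1)).filter_mono hU).mono fun n hn => ?_
    obtain ⟨m, rfl⟩ := Nat.exists_eq_add_of_le' hn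
    have e : ∀ i : Fin (k + 1), m + (s + k + 1) - (s + (i + 1)) = m + k - i := fun i => by omega
    have h1 : 0 ≤ ∑ i, B i * x (m + k - i) :=
      Finset.sum_nonneg fun i _ => mul_nonneg (hB i) (hb _).1
    simp only [e]
    rw [show m + (s + k + 1) - s = m + k + 1 by omega, h.2, div_mul_cancel₀ _ (by positivity)]
  have key : ∀ s, z s = L → (∀ i, 0 < β i → z (s + (i + 1)) = L) ∧ z (s + (j + 1)) = 0 := by
    intro s hsL
    have h1 := zr s
    have h2 : ∀ i ∈ Finset.univ, 0 ≤ B i * z (s + (i + 1)) := fun i _ => mul_nonneg (hB i) (zn _)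
    have h3 : ∀ i ∈ Finset.univ, 0 ≤ β i * (L - z (s + (i + 1))) := fun i _ =>
      mul_nonneg (hβ i) (sub_nonneg.mpr (zL _))
    have h4 : ∑ i, β i * (L - z (s + (i + 1))) = L * A - ∑ i, β i * z (s + (i + 1)) := by
      simp only [mul_sub, Finset.sum_sub_distrib, ← Finset.sum_mul, ← hs]
      ring
    have h5 := Finset.sum_nonneg h2
    have h6 := Finset.sum_nonneg h3
    rw [hsL] at h1
    have h7 : ∑ i, B i * z (s + (i + 1)) = 0 := by nlinarith
    have h8 : ∑ i, β i * (L - z (s + (i + 1))) = 0 := by nlinarith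
    refine ⟨fun i hi => ?_, ?_⟩
    · have := (Finset.sum_eq_zero_iff_of_nonneg h3).mp h8 i (Finset.mem_univ _)
      rw [mul_eq_zero, sub_eq_zero] at this
      exact (this.resolve_left hi.ne').symm
    · have := (Finset.sum_eq_zero_iff_of_nonneg h2).mp h7 j (Finset.mem_univ _)
      exact (mul_eq_zero.mp this).resolve_left hj.ne'
  have grp : ∀ l ∈ AddSubgroup.closure {l : ℤ | ∃ i : Fin (k + 1), 0 < β i ∧ l = i + 1},
      ∃ a b : ℕ, (∀ s, z s = L → z (s + a) = L) ∧ (∀ s, z s = L → z (s + b) = L) ∧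
        l = a - b := by
    intro l hl
    induction hl using AddSubgroup.closure_induction with
    | mem l hl =>
      obtain ⟨i, hi, rfl⟩ := hl
      exact ⟨i + 1, 0, fun s h => (key s h).1 i hi, fun s h => h, by simp⟩
    | zero => exact ⟨0, 0, fun s h => h, fun s h => h, by simp⟩
    | add l l' _ _ h1 h2 =>
      obtain ⟨a, b, ha, hb, rfl⟩ := h1
      obtain ⟨a', b', ha', hb', rfl⟩ := h2
      exact ⟨a + a', b + b', fun s h => by rw [← add_assoc]; exact ha' _ (ha s h),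
        fun s h => by rw [← add_assoc]; exact hb' _ (hb s h), by push_cast; ring⟩
    | neg l _ h1 =>
      obtain ⟨a, b, ha, hb, rfl⟩ := h1
      exact ⟨b, a, hb, ha, by ring⟩
  obtain ⟨a, b, ha, hb', e⟩ := grp _ hG
  have h1 := (key _ (hb' 0 z0)).2
  rw [show 0 + b + (j + 1) = 0 + a by omega, ha 0 z0] at h1
  exact hL.ne' h1

theorem result (k : ℕ) (A : ℝ) (β B : Fin (k + 1) → ℝ) (hA : 0 < A) (hβ : ∀ i, 0 ≤ β i)
    (hB : ∀ i, 0 ≤ B i) (hB' : 0 < ∑ i, B i) (hs : A = ∑ i, β i)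
    (hno : ¬ ∃ (x : ℕ → ℝ) (p : ℕ), IsSol A β B x ∧ 2 ≤ p ∧ PrimePeriod x p) :
    (∀ ε > 0, ∃ δ > 0, ∀ x, IsSol A β B x → (∀ j ≤ k, x j < δ) → ∀ n, x n < ε) ∧
      ∀ x, IsSol A β B x → Tendsto x atTop (𝓝 0) := by
  classical
  refine ⟨fun ε hε => ⟨ε / 2, by positivity, fun x hx h n => ?_⟩, fun x hx => ?_⟩
  · linarith [(bdd hA hβ hB hs hx (fun j hj => (h j hj).le) n).2]
  set G := AddSubgroup.closure {l : ℤ | ∃ i : Fin (k + 1), 0 < β i ∧ l = i + 1} with hGdef
  by_cases hG : ∃ j : Fin (k + 1), 0 < B j ∧ ((j : ℤ) + 1) ∈ G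
  · obtain ⟨j, hj, hG⟩ := hG
    exact conv hA hβ hB hs j hj hG hx
  exfalso
  push Not at hG
  let y : ℕ → ℝ := fun n => if (n : ℤ) ∈ G then 1 else 0
  have mem : ∀ i : Fin (k + 1), 0 < β i → ((i : ℤ) + 1) ∈ G := fun i hi =>
    AddSubgroup.subset_closure ⟨i, hi, rfl⟩
  obtain ⟨i0, -, hi0⟩ := Finset.exists_lt_of_sum_lt (s := Finset.univ) (f := fun _ => (0:ℝ))
    (g := β) (by simpa [← hs] using hA)
  obtain ⟨j0, -, hj0⟩ := Finset.exists_lt_of_sum_lt (s := Finset.univ) (f := fun _ => (0:ℝ))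
    (g := B) (by simpa using hB')
  have hex : ∃ q : ℕ, 0 < q ∧ ∀ n, y (n + q) = y n := by
    refine ⟨i0 + 1, by omega, fun n => ?_⟩
    simp only [y]
    push_cast
    simp only [G.add_mem_cancel_right (mem i0 hi0)]
  refine hno ⟨y, Nat.find hex, ⟨fun j _ => ?_, fun n => ?_⟩, ?_,
    Nat.find_spec hex, fun q hq => Nat.find_min' hex hq⟩
  · simp only [y]; split_ifs <;> norm_num
  · have e : ∀ i : Fin (k + 1), ((n + k + 1 : ℕ) : ℤ) = (n + k - i : ℕ) + ((i : ℤ) + 1) :=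
      fun i => by omega
    have h1 : ∀ i, β i * y (n + k - i) = β i * y (n + k + 1) := fun i => by
      rcases (hβ i).eq_or_lt with h0 | h0
      · simp [← h0]
      · simp only [y, e i, G.add_mem_cancel_right (mem i h0)]
    simp only [h1, ← Finset.sum_mul, ← hs]
    by_cases hn : ((n + k + 1 : ℕ) : ℤ) ∈ G
    · have h2 : ∀ i, B i * y (n + k - i) = 0 := fun i => by
        rcases (hB i).eq_or_lt with h0 | h0
        · simp [← h0]
        · have : ¬ ((n + k - i : ℕ) : ℤ) ∈ G := fun h3 =>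
            hG i h0 ((G.add_mem_cancel_left h3).mp (e i ▸ hn))
          simp only [y, this, if_false, mul_zero]
      simp only [h2, Finset.sum_const_zero, add_zero]
      field_simp
    · simp only [y, hn, if_false, mul_zero, zero_div]
  · by_contra hp
    have h1 := Nat.find_spec hex
    have h2 : Nat.find hex = 1 := by omega
    rw [h2] at h1
    have h3 : ∀ n, y n = y 0 := fun n => by
      induction n with
      | zero => rfl
      | succ n ih => rw [h1.2, ih]
    have h4 := h3 (j0 + 1)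
    have h5 := hG j0 hj0
    simp [y, h5] at h4

end Pool.Agent.Results.MP_2e7467_an.GAS
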